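import Pool.Agent.H24.KTH.Geo

/-!
# KTH, row VEC: an integer vector near a centre known from `W`
-/

set_option autoImplicit false

namespace Pool.Agent.H24.KTH

open Finset Real
open Pool.Agent.H49.Ent Pool.Agent.H32.Dense

theorem vec : VECStmt := by
  intro d
  induction d with
  | zero =>
    intro Ω _ β q W X F L hq h1 hF hL
    rw [CH_eq_zero hq (fun ω ω' _ _ _ => Subsingleton.elim _ _)]
    simp
  | succ d ih =>
    intro Ω _ β q W X F L hq h1 hF hL
    have hLn : ∀ ω, 0 < q ω → 0 ≤ L ω := fun ω hω => (abs_nonneg _).trans (hL ω hω 0)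
    have hs := CH_subadd hq (fun ω => X ω 0) (fun ω (k : Fin d) => X ω k.succ) W
    have hm : CH q X W ≤ CH q (fun ω => (X ω 0, fun k : Fin d => X ω k.succ)) W := by
      refine CH_mono_left hq ?_
      intro ω ω' _ _ h
      simp only [Prod.mk.injEq] at h
      funext k
      refine Fin.cases ?_ (fun k => ?_) k
      · exact h.1.1
      · exact congrFun h.1.2 k
    have ht := ih Ω β q W (fun ω k => X ω k.succ) (fun ω k => F ω k.succ) L hq h1
      (fun ω ω' a b h => by
        funext k
        exact congrFun (hF ω ω' a b h) k.succ)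
      (fun ω hω k => hL ω hω k.succ)
    have h0 : CH q (fun ω => X ω 0) W ≤ 2 * Ex q (fun ω => Real.log (1 + L ω)) + 10 := by
      have e : CH q (fun ω => X ω 0) W = CH q (fun ω => X ω 0 - ⌊F ω 0⌋) W := by
        refine CH_congr hq ?_ ?_ (fun _ _ _ _ h => h) (fun _ _ _ _ h => h)
        · intro ω ω' a b h
          simp only [Prod.mk.injEq] at h
          have hf := hF ω ω' a b h.2
          show X ω 0 - ⌊F ω 0⌋ = X ω' 0 - ⌊F ω' 0⌋
          rw [h.1, hf]
        · intro ω ω' a b h
          simp only [Prod.mk.injEq] at h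
          have hf := hF ω ω' a b h.2
          rw [hf] at h
          have := h.1
          show X ω 0 = X ω' 0
          omega
      rw [e]
      have hb := CH_le_tail (M := 1) one_pos hq h1 (fun ω => X ω 0 - ⌊F ω 0⌋) W
      simp only [Nat.cast_one, Real.log_one, div_one, zero_add] at hb
      have hx : Ex q (fun ω => Real.log (1 + |((X ω 0 - ⌊F ω 0⌋ : ℤ) : ℝ)|)) ≤
          Ex q (fun ω => Real.log 2 + Real.log (1 + L ω)) := by
        refine Ex_mono hq fun ω hω => ?_
        have hl := hLn ω hω
        rw [← Real.log_mul (by norm_num) (by linarith)]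
        refine Real.log_le_log (by positivity) ?_
        have h3 : |((X ω 0 - ⌊F ω 0⌋ : ℤ) : ℝ)| ≤ L ω + 1 := by
          push_cast
          have h4 := hL ω hω 0
          have h5 := Int.floor_le (F ω 0)
          have h6 := Int.lt_floor_add_one (F ω 0)
          rw [abs_le] at h4 ⊢
          constructor <;> linarith [h4.1, h4.2]
        linarith
      rw [Ex_add, Ex_const h1] at hx
      have hl2 : Real.log 2 ≤ 1 := by
        have := Real.log_two_lt_d9
        linarith
      have hpos : 0 ≤ Ex q (fun ω => Real.log (1 + L ω)) :=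
        Ex_nonneg hq fun ω hω => Real.log_nonneg (by linarith [hLn ω hω])
      nlinarith
    push_cast
    have : ((d : ℝ) + 1) * (2 * Ex q (fun ω => Real.log (1 + L ω)) + 10) =
        d * (2 * Ex q (fun ω => Real.log (1 + L ω)) + 10) +
          (2 * Ex q (fun ω => Real.log (1 + L ω)) + 10) := by ring
    rw [this]
    linarith

end Pool.Agent.H24.KTH
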