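import Pool.Agent.H12.KTH.Stmts

/-!
# KTH, row KPS: the ratios are neither large nor small
-/

set_option autoImplicit false

namespace Pool.KTH

open Finset Real
open Pool.Agent.H49.Ent Pool.Agent.H32.Dense

theorem kps_gp_nonneg (J : ℕ) (x y : ℤ) : 0 ≤ gp J x y := by
  unfold gp
  exact Real.log_nonneg (by
    have : (0 : ℝ) ≤ 2 ^ J / max 1 |(x : ℝ) - y| := by positivity
    linarith)

theorem kps_log (J : ℕ) (x y τ : ℤ) (hτ : 0 ≤ τ ∧ τ < ((2 ^ J : ℕ) : ℤ))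
    (hy : 0 ≤ y ∧ y < ((2 ^ J : ℕ) : ℤ)) :
    Real.log (1 + |kap x y τ|) ≤ Real.log 9 + gp J τ x := by
  have h := kap_le x y τ
  have hM1 : (1 : ℝ) ≤ 2 ^ J := one_le_pow₀ (by norm_num)
  have hm : max |(τ : ℝ) - y| 1 ≤ 2 ^ J := by
    refine max_le ?_ hM1
    have h1 : (0 : ℝ) ≤ τ := by exact_mod_cast hτ.1
    have h2 : (τ : ℝ) < 2 ^ J := by
      have := hτ.2
      have h' : ((τ : ℤ) : ℝ) < (((2 ^ J : ℕ) : ℤ) : ℝ) := by exact_mod_cast this
      simpa using h'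
    have h3 : (0 : ℝ) ≤ y := by exact_mod_cast hy.1
    have h4 : (y : ℝ) < 2 ^ J := by
      have := hy.2
      have h' : ((y : ℤ) : ℝ) < (((2 ^ J : ℕ) : ℤ) : ℝ) := by exact_mod_cast this
      simpa using h'
    exact abs_le.mpr ⟨by linarith, by linarith⟩
  have hp : (0 : ℝ) < max 1 |(τ : ℝ) - x| := lt_of_lt_of_le one_pos (le_max_left _ _)
  have h5 : |kap x y τ| ≤ 9 * (2 ^ J / max 1 |(τ : ℝ) - x|) := by
    refine h.trans ?_
    rw [max_comm |(τ : ℝ) - x| 1]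
    gcongr
  have h6 : (0 : ℝ) ≤ 2 ^ J / max 1 |(τ : ℝ) - x| := by positivity
  unfold gp
  rw [← Real.log_mul (by norm_num) (by positivity)]
  refine Real.log_le_log (by positivity) ?_
  linarith

theorem kps (hTMS : TMSStmt) : KPSStmt := by
  intro d
  obtain ⟨C, hC, h⟩ := (hTMS d).2
  refine ⟨4 * Real.log 9 + 4 * C, by
    have : 0 ≤ Real.log 9 := Real.log_nonneg (by norm_num)
    linarith, fun J F L sb e hF => ?_⟩
  have hT := h J F L sb e hF
  have he : 1 ≤ er J e := by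
    unfold er
    have h1 := hF.e0
    have h2 : 0 ≤ Real.log ((J : ℝ) + 2) := Real.log_nonneg (by
      have : (0 : ℝ) ≤ J := Nat.cast_nonneg J
      linarith)
    linarith
  have hn : ∀ x y : F.Ω → ℤ, 0 ≤ F.eg x y := fun x y =>
    Ex_nonneg F.hq fun w _ => kps_gp_nonneg J _ _
  have n1 := hn F.t F.s
  have n2 := hn F.t₁ F.t
  have n3 := hn F.t₁ F.s
  have n4 := hn F.r F.t
  have n5 := hn F.r F.s
  have n6 := hn F.r F.t₁
  have n7 := hn F.tr F.s
  have n8 := hn F.ta F.s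
  have n9 := hn F.ta F.tr
  have n10 := hn F.ta F.TO
  have key : ∀ (f : F.Ω → ℝ) (x y : F.Ω → ℤ),
      (∀ w, 0 < F.q w → f w ≤ Real.log 9 + gp J (x w) (y w)) →
      Ex F.q f ≤ Real.log 9 + F.eg x y := by
    intro f x y hf
    refine (Ex_mono F.hq hf).trans (le_of_eq ?_)
    rw [Ex_add, Ex_const F.h1]
    rfl
  have k1 : Ex F.q (fun w => Real.log (1 + |F.k₁ w|)) ≤ Real.log 9 + F.eg F.t₁ F.t :=
    key _ _ _ fun w hw => kps_log J _ _ _ (F.ht₁ w hw) (F.hs w hw)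
  have k2 : Ex F.q (fun w => Real.log (1 + |F.k₁ w|⁻¹)) ≤ Real.log 9 + F.eg F.t₁ F.s :=
    key _ _ _ fun w hw => by
      have e1 : |F.k₁ w|⁻¹ = |kap (F.s w) (F.t w) (F.t₁ w)| := by
        rw [kap_swap (F.t w) (F.s w) (F.t₁ w), abs_inv]
        rfl
      rw [e1]
      exact kps_log J _ _ _ (F.ht₁ w hw) (F.ht w hw)
  have k3 : Ex F.q (fun w => Real.log (1 + |F.k₂ w|)) ≤ Real.log 9 + F.eg F.ta F.s :=
    key _ _ _ fun w hw => kps_log J _ _ _ (F.hta w hw) (F.htr w hw)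
  have k4 : Ex F.q (fun w => Real.log (1 + |F.k₂ w|⁻¹)) ≤ Real.log 9 + F.eg F.ta F.tr :=
    key _ _ _ fun w hw => by
      have e1 : |F.k₂ w|⁻¹ = |kap (F.tr w) (F.s w) (F.ta w)| := by
        rw [kap_swap (F.s w) (F.tr w) (F.ta w), abs_inv]
        rfl
      rw [e1]
      exact kps_log J _ _ _ (F.hta w hw) (F.hs w hw)
  have hl : 0 ≤ Real.log 9 := Real.log_nonneg (by norm_num)
  have hCe : 0 ≤ C * er J e := by positivity
  have hle : 4 * Real.log 9 ≤ 4 * Real.log 9 * er J e := by nlinarith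
  have : (4 * Real.log 9 + 4 * C) * er J e = 4 * Real.log 9 * er J e + 4 * (C * er J e) := by ring
  rw [this]
  simp only at hT
  linarith

end Pool.KTH
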