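import Pool.Agent.H45.KTH.Ratio

/-!
# KTH, row FCK (Fact K)
-/

set_option autoImplicit false

namespace Pool.KTH

open Finset Real
open Pool.Agent.H49.Ent Pool.Agent.H32.Dense

section General

variable {d : ℕ} {Ω : Type} [Fintype Ω]

/-- Entropy of the ratios if `(c / M) D` is known up to `2`. -/
theorem iot_CH (hd : 1 ≤ d) {J : ℕ} {β : Type} {q : Ω → ℝ} (hq : ∀ w, 0 ≤ q w)
    (h1 : ∑ w, q w = 1) (Y : Ω → β) (D : Ω → Fin d → ℤ) (c : Ω → ℤ) (W : Ω → Fin d → ℝ)
    (hdet : Det q Y W) (hD : ∀ w, 0 < q w → ∀ k, |D w k| ≤ 2 * 2 ^ J)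
    (hW : ∀ w, 0 < q w → ∀ j, |W w j - (c w : ℝ) / 2 ^ J * D w j| ≤ 2) :
    CH q (fun w => iot hd (D w)) Y ≤ Real.log d + Real.log (J + 3) +
      d * (2 * Real.log 57 + 2 * Ex q (fun w => Real.log (1 + 2 ^ J / max 1 |(c w : ℝ)|)) + 10) := by
  have e0 : CH q (fun w => iot hd (D w)) Y =
      CH q (fun w => (kk hd (D w), bb hd (D w))) Y +
        CH q (fun w => EE hd (D w)) (fun w => ((kk hd (D w), bb hd (D w)), Y w)) :=
    CH_chain hq _ _ _
  have e1 := CH_subadd hq (fun w => kk hd (D w)) (fun w => bb hd (D w)) Y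
  have e2 : CH q (fun w => kk hd (D w)) Y ≤ Real.log d := by
    refine (CH_le_card hq h1 _ Y (fun _ => (Finset.univ : Finset (Fin d)))
      (fun w _ => Finset.mem_univ _)).trans (le_of_eq ?_)
    rw [Ex_const h1]
    simp
  have e3 : CH q (fun w => bb hd (D w)) Y ≤ Real.log (J + 3) := by
    refine (CH_le_card hq h1 _ Y (fun _ => Finset.range (J + 3))
      (fun w hw => Finset.mem_range.2 (bb_lt hd (D w) (hD w hw _)))).trans (le_of_eq ?_)
    rw [Ex_const h1, Finset.card_range]
    push_cast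
    rfl
  have hM : (0 : ℝ) < 2 ^ J := by positivity
  have e4 := Pool.Agent.H24.KTH.vec d Ω _ q (fun w => ((kk hd (D w), bb hd (D w)), Y w))
    (fun w => EE hd (D w)) (fun w => Ctr (bb hd (D w)) (kk hd (D w)) (W w))
    (fun w => 56 * (1 + 2 ^ J / max 1 |(c w : ℝ)|)) hq h1
    (fun w w' a b h => by
      have h2 := (Prod.ext_iff.1 h)
      have h3 := (Prod.ext_iff.1 h2.1)
      have h4 := hdet w w' a b h2.2
      have h5 : kk hd (D w) = kk hd (D w') := h3.1
      have h6 : bb hd (D w) = bb hd (D w') := h3.2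
      show Ctr (bb hd (D w)) (kk hd (D w)) (W w) = Ctr (bb hd (D w')) (kk hd (D w')) (W w')
      rw [h5, h6, h4])
    (fun w hw k => EE_near hd (D w) hM (c w) (W w) (by
      have := hD w hw (kk hd (D w))
      exact_mod_cast this) (hW w hw) k)
  have e5 : Ex q (fun w => Real.log (1 + 56 * (1 + 2 ^ J / max 1 |(c w : ℝ)|))) ≤
      Real.log 57 + Ex q (fun w => Real.log (1 + 2 ^ J / max 1 |(c w : ℝ)|)) := by
    have : Ex q (fun w => Real.log (1 + 56 * (1 + 2 ^ J / max 1 |(c w : ℝ)|))) ≤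
        Ex q (fun w => Real.log 57 + Real.log (1 + 2 ^ J / max 1 |(c w : ℝ)|)) := by
      refine Ex_mono hq fun w _ => ?_
      have hp : (0 : ℝ) ≤ 2 ^ J / max 1 |(c w : ℝ)| := by positivity
      rw [← Real.log_mul (by norm_num) (by positivity)]
      refine Real.log_le_log (by positivity) ?_
      linarith
    rwa [Ex_add, Ex_const h1] at this
  have e6 : (d : ℝ) * (2 * Ex q (fun w => Real.log (1 + 56 * (1 + 2 ^ J / max 1 |(c w : ℝ)|))) + 10) ≤
      d * (2 * Real.log 57 + 2 * Ex q (fun w => Real.log (1 + 2 ^ J / max 1 |(c w : ℝ)|)) + 10) := by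
    have : (0 : ℝ) ≤ d := Nat.cast_nonneg d
    refine mul_le_mul_of_nonneg_left ?_ this
    linarith
  rw [e0]
  linarith

/-- Given the ratios the vector is known from its maximal coordinate. -/
theorem CH_D_le (hd : 1 ≤ d) {β : Type} {q : Ω → ℝ} (hq : ∀ w, 0 ≤ q w) (S : Ω → β)
    (D : Ω → Fin d → ℤ) :
    CH q D (fun w => (iot hd (D w), S w)) ≤
      CH q (fun w => D w (kk hd (D w))) (fun w => (iot hd (D w), S w)) := by
  refine CH_mono_left hq fun w w' _ _ h => ?_
  have h1 := Prod.ext_iff.1 h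
  have h2 : iot hd (D w) = iot hd (D w') := (Prod.ext_iff.1 h1.2).1
  exact iot_inj hd h2 h1.1

end General

theorem fck (hSCL : SCLStmt) (hGAP : GAPStmt) : FCKStmt := by
  intro d hd ε hε
  obtain ⟨θS, hθS, JS, hS⟩ := hSCL (ε / 4) (by positivity)
  obtain ⟨CG, hCG, hG⟩ := hGAP
  -- the constants
  have hd0 : (0 : ℝ) ≤ d := Nat.cast_nonneg d
  have hl57 : 0 ≤ Real.log 57 := Real.log_nonneg (by norm_num)
  set K : ℝ := Real.log d + Real.log 2 + d * (2 * Real.log 57 + 2 * CG + 10) + Real.log 3 with hK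
  have hlogd : 0 ≤ Real.log d := Real.log_natCast_nonneg d
  have hl2 : 0 ≤ Real.log 2 := Real.log_nonneg (by norm_num)
  have hl3 : 0 ≤ Real.log 3 := Real.log_nonneg (by norm_num)
  have hK0 : 0 ≤ K := by positivity
  obtain ⟨JE, hJE1, hJE⟩ := er_small (ε := ε / (4 * (K + 1))) (by positivity)
  obtain ⟨n, hn⟩ := exists_nat_gt (1 / θS)
  set θ : ℝ := min θS (ε / (4 * (1 + 4 * d))) with hθ
  have hθ0 : 0 < θ := lt_min hθS (by positivity)
  refine ⟨θ, hθ0, max (max JS JE) (n + 1), fun J hJ => ?_⟩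
  intro Ω ζ _ q Z v v' u u' t r hq h1 hv hv' hu hu' ht hr hcross hunif
  have hJ1 : JS ≤ J := (le_max_left _ _).trans ((le_max_left _ _).trans hJ)
  have hJ2 : JE ≤ J := (le_max_right _ _).trans ((le_max_left _ _).trans hJ)
  have hJ3 : n + 1 ≤ J := (le_max_right _ _).trans hJ
  have hlm := lm_nonneg J
  -- the difference of the directions
  set D : Ω → Fin d → ℤ := fun w k => v' w k - v w k with hDdef
  have hDb : ∀ w, 0 < q w → ∀ k, |D w k| ≤ 2 * 2 ^ J := by
    intro w hw k
    have a := hv w hw k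
    have b := hv' w hw k
    rw [abs_le] at a b ⊢
    simp only [hDdef]
    constructor <;> linarith [a.1, a.2, b.1, b.2]
  have hM : (0 : ℝ) < 2 ^ J := by positivity
  have hMc : (((2 ^ J : ℕ) : ℕ) : ℝ) = 2 ^ J := by push_cast; rfl
  -- the point and its position
  set P : Ω → Fin d → ℤ := fun w => rd (pos (2 ^ J) (u' w) (v' w) (r w)) with hP
  -- the equations of the two lines
  have hpos : ∀ (a : Fin d → ℝ) (b : Fin d → ℤ) (x : ℤ) (k : Fin d),
      pos (2 ^ J) a b x k = a k + (x : ℝ) / 2 ^ J * b k := by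
    intro a b x k
    unfold pos
    rw [hMc]
  have hW : ∀ w, 0 < q w → ∀ j, |((P w j : ℝ) - pos (2 ^ J) (u w) (v w) (r w) j) -
      ((r w - t w : ℤ) : ℝ) / 2 ^ J * D w j| ≤ 2 := by
    intro w hw j
    have c1 := congrFun (hcross w hw) j
    simp only [rd] at c1
    have f1 := Int.floor_le (pos (2 ^ J) (u w) (v w) (t w) j)
    have f2 := Int.lt_floor_add_one (pos (2 ^ J) (u w) (v w) (t w) j)
    have f3 := Int.floor_le (pos (2 ^ J) (u' w) (v' w) (t w) j)
    have f4 := Int.lt_floor_add_one (pos (2 ^ J) (u' w) (v' w) (t w) j)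
    rw [c1] at f1 f2
    have g1 := Int.floor_le (pos (2 ^ J) (u' w) (v' w) (r w) j)
    have g2 := Int.lt_floor_add_one (pos (2 ^ J) (u' w) (v' w) (r w) j)
    have hPd : (P w j : ℝ) = (⌊pos (2 ^ J) (u' w) (v' w) (r w) j⌋ : ℝ) := rfl
    rw [hPd]
    have e1 : ((r w - t w : ℤ) : ℝ) / 2 ^ J * D w j =
        (pos (2 ^ J) (u' w) (v' w) (r w) j - pos (2 ^ J) (u w) (v w) (r w) j) -
        (pos (2 ^ J) (u' w) (v' w) (t w) j - pos (2 ^ J) (u w) (v w) (t w) j) := by
      simp only [hpos, hDdef]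
      push_cast
      ring
    rw [e1, abs_le]
    constructor <;> linarith
  -- the side information with the ratios
  have hdetu : Det q (fun w => (v w, pp J u' v' r w, Z w))
      (fun w => fun j => (P w j : ℝ) - pos (2 ^ J) (u w) (v w) (r w) j) := by
    intro w w' a b h
    have h2 := Prod.ext_iff.1 h
    have h3 := Prod.ext_iff.1 h2.2
    have h4 := Prod.ext_iff.1 h3.1
    have hv2 : v w = v w' := h2.1
    have hr2 : r w = r w' := h4.1
    have hP2 : P w = P w' := h4.2
    have hu2 : u w = u w' := hu w w' a b (Prod.ext h2.1 h3.2)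
    funext j
    show (P w j : ℝ) - pos (2 ^ J) (u w) (v w) (r w) j =
      (P w' j : ℝ) - pos (2 ^ J) (u w') (v w') (r w') j
    rw [hP2, hu2, hv2, hr2]
  have hI := iot_CH hd hq h1 (fun w => (v w, pp J u' v' r w, Z w)) D (fun w => r w - t w)
    (fun w => fun j => (P w j : ℝ) - pos (2 ^ J) (u w) (v w) (r w) j) hdetu hDb hW
  -- the times are far
  have hgap := hG J Ω _ q (fun w => ((v w, v' w), t w, Z w)) r t (θ * lm J) hq h1
    (fun w hw => by
      have := hr w hw
      refine ⟨this.1, ?_⟩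
      have h2 := this.2
      exact h2)
    (fun w w' _ _ h => (Prod.ext_iff.1 (Prod.ext_iff.1 h).2).1) hunif
  have hgap2 : Ex q (fun w => Real.log (1 + 2 ^ J / max 1 |((r w - t w : ℤ) : ℝ)|)) ≤
      2 * (θ * lm J) + CG := by
    refine le_trans (le_of_eq ?_) hgap
    unfold gp
    congr 1
    funext w
    push_cast
    rfl
  -- SCL
  set g : Ω → ℤ := fun w => D w (kk hd (D w)) with hg
  set x : Ω → ℝ := fun w => u' w (kk hd (D w)) - u w (kk hd (D w)) with hx
  set s0 : Ω → ℤ := fun w => ⌊x w + (r w : ℝ) / 2 ^ J * g w⌋ with hs0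
  have hscl := hS J hJ1 Ω _ q (fun w => (iot hd (D w), v w, Z w)) g x r hq h1
    (fun w hw => hDb w hw _)
    (by
      have hb : Ex q (fun w => Real.log (1 + |(r w : ℝ)| / 2 ^ J)) ≤ Real.log 2 := by
        have : Ex q (fun w => Real.log (1 + |(r w : ℝ)| / 2 ^ J)) ≤ Ex q (fun _ => Real.log 2) := by
          refine Ex_mono hq fun w hw => ?_
          refine Real.log_le_log (by positivity) ?_
          have h2 := hr w hw
          have h3 : (0 : ℝ) ≤ r w := by exact_mod_cast h2.1
          have h4 : (r w : ℝ) ≤ 2 ^ J := by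
            have h5 : ((r w : ℤ) : ℝ) < (((2 ^ J : ℕ) : ℤ) : ℝ) := by exact_mod_cast h2.2
            push_cast at h5
            exact h5.le
          rw [abs_of_nonneg h3]
          have : (r w : ℝ) / 2 ^ J ≤ 1 := by
            rw [div_le_one hM]
            exact h4
          linarith
        rwa [Ex_const h1] at this
      refine hb.trans ?_
      unfold lm
      have hJr : (n : ℝ) + 1 ≤ J := by exact_mod_cast hJ3
      have h2 : 1 ≤ θS * J := by
        have h3 : 1 / θS ≤ J := by linarith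
        rw [div_le_iff₀ hθS] at h3
        linarith
      nlinarith)
    (by
      have hmono : CH q r (fun w => ((v w, v' w), t w, Z w)) ≤
          CH q r (fun w => ((g w, x w), iot hd (D w), v w, Z w)) := by
        refine CH_mono_cond hq ?_
        intro w w' a b h
        have h2 := Prod.ext_iff.1 h
        have h3 := Prod.ext_iff.1 h2.1
        have h4 := Prod.ext_iff.1 h2.2
        have hv2 : v w = v w' := h3.1
        have hv2' : v' w = v' w' := h3.2
        have hZ2 : Z w = Z w' := h4.2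
        have hu2 : u w = u w' := hu w w' a b (Prod.ext hv2 hZ2)
        have hu2' : u' w = u' w' := hu' w w' a b (Prod.ext hv2' hZ2)
        have hD2 : D w = D w' := by
          funext k
          simp only [hDdef]
          rw [hv2, hv2']
        simp only [hg, hx]
        rw [hD2, hu2, hu2', hv2, hZ2]
      have hθle : θ * lm J ≤ θS * lm J := mul_le_mul_of_nonneg_right (min_le_left _ _) hlm
      linarith)
  -- the entropies
  set Z' : Ω → ((Fin d → ℤ) × (Fin d × ℕ)) × (Fin d → ℤ) × ζ :=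
    fun w => (iot hd (D w), v w, Z w) with hZ'
  set B : Ω → ℤ × (Fin d → ℤ) := pp J u' v' r with hB
  have t1 : CH q v' (fun w => (v w, B w, Z w)) ≤
      CH q (fun w => iot hd (D w)) (fun w => (v w, B w, Z w)) +
        CH q v' (fun w => (iot hd (D w), (v w, B w, Z w))) := CH_le_add hq _ _ _
  have t2 : CH q v' (fun w => (iot hd (D w), (v w, B w, Z w))) =
      CH q v' (fun w => (B w, Z' w)) := by
    refine CH_congr hq (fun w w' _ _ h => (Prod.ext_iff.1 h).1)
      (fun w w' _ _ h => (Prod.ext_iff.1 h).1) ?_ ?_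
    · intro w w' _ _ h
      simp only [hZ', Prod.mk.injEq] at h ⊢
      tauto
    · intro w w' _ _ h
      simp only [hZ', Prod.mk.injEq] at h ⊢
      tauto
  have t3 : CH q (fun w => (v' w, B w)) Z' = CH q B Z' + CH q v' (fun w => (B w, Z' w)) :=
    CH_chain hq _ _ _
  have t4 : CH q (fun w => (v' w, B w)) Z' = CH q (fun w => (B w, v' w)) Z' := by
    refine CH_congr hq ?_ ?_ (fun _ _ _ _ h => h) (fun _ _ _ _ h => h)
    · intro w w' _ _ h
      simp only [Prod.mk.injEq] at h ⊢
      tauto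
    · intro w w' _ _ h
      simp only [Prod.mk.injEq] at h ⊢
      tauto
  have t5 : CH q (fun w => (B w, v' w)) Z' = CH q v' Z' + CH q B (fun w => (v' w, Z' w)) :=
    CH_chain hq _ _ _
  have t6 : CH q B (fun w => (v' w, Z' w)) ≤ lm J := by
    have h2 : CH q B (fun w => (v' w, Z' w)) ≤ CH q r (fun w => (v' w, Z' w)) := by
      refine CH_mono_left hq ?_
      intro w w' a b h
      have h2 := Prod.ext_iff.1 h
      have h3 := Prod.ext_iff.1 h2.2
      have hr2 : r w = r w' := h2.1
      have hv2' : v' w = v' w' := h3.1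
      have hZ2 : Z w = Z w' := (Prod.ext_iff.1 (Prod.ext_iff.1 h3.2).2).2
      have hu2' : u' w = u' w' := hu' w w' a b (Prod.ext hv2' hZ2)
      show pp J u' v' r w = pp J u' v' r w'
      unfold pp
      rw [hr2, hu2', hv2']
    have h3 : CH q r (fun w => (v' w, Z' w)) ≤ Real.log ((2 ^ J : ℕ) : ℝ) :=
      CH_time_le hq h1 hr _
    rw [lm_eq']
    linarith
  have t7 : CH q v' Z' ≤ CH q g Z' := by
    have h2 : CH q v' Z' = CH q D Z' := by
      refine CH_congr hq ?_ ?_ (fun _ _ _ _ h => h) (fun _ _ _ _ h => h)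
      · intro w w' _ _ h
        have h2 := Prod.ext_iff.1 h
        have hv2' : v' w = v' w' := h2.1
        have hv2 : v w = v w' := (Prod.ext_iff.1 (Prod.ext_iff.1 h2.2).2).1
        funext k
        show v' w k - v w k = v' w' k - v w' k
        rw [hv2, hv2']
      · intro w w' _ _ h
        have h2 := Prod.ext_iff.1 h
        have hD2 : D w = D w' := h2.1
        have hv2 : v w = v w' := (Prod.ext_iff.1 (Prod.ext_iff.1 h2.2).2).1
        funext k
        have h3 := congrFun hD2 k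
        have h4 := congrFun hv2 k
        have h5 : v' w k - v w k = v' w' k - v w' k := h3
        linarith
    rw [h2]
    exact CH_D_le hd hq (fun w => (v w, Z w)) D
  have t8 : CH q B Z' = CH q r Z' + CH q P (fun w => (r w, Z' w)) := by
    have h2 : CH q B Z' = CH q (fun w => (P w, r w)) Z' := by
      refine CH_congr hq ?_ ?_ (fun _ _ _ _ h => h) (fun _ _ _ _ h => h)
      · intro w w' _ _ h
        have h2 := Prod.ext_iff.1 (Prod.ext_iff.1 h).1
        exact Prod.ext h2.2 h2.1
      · intro w w' _ _ h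
        have h2 := Prod.ext_iff.1 (Prod.ext_iff.1 h).1
        exact Prod.ext h2.2 h2.1
    rw [h2]
    exact CH_chain hq _ _ _
  have t9 : lm J - θ * lm J ≤ CH q r Z' := by
    refine hunif.trans (CH_mono_cond hq ?_)
    intro w w' _ _ h
    have h2 := Prod.ext_iff.1 h
    have h3 := Prod.ext_iff.1 h2.1
    have h4 := Prod.ext_iff.1 h2.2
    have hv2 : v w = v w' := h3.1
    have hv2' : v' w = v' w' := h3.2
    have hZ2 : Z w = Z w' := h4.2
    have hD2 : D w = D w' := by
      funext k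
      simp only [hDdef]
      rw [hv2, hv2']
    simp only [hZ']
    rw [hD2, hv2, hZ2]
  have t10 : CH q s0 (fun w => (r w, Z' w)) ≤ CH q P (fun w => (r w, Z' w)) + Real.log 3 := by
    have h2 := CH_le_add hq s0 P (fun w => (r w, Z' w))
    have h3 := CH_le_int hq h1 s0 (fun w => (P w, r w, Z' w)) (fun _ => 1) (by
      intro w w' a b h
      have h2 := Prod.ext_iff.1 h
      have h3 := Prod.ext_iff.1 h2.2
      have h4 := Prod.ext_iff.1 h3.2
      have h5 := Prod.ext_iff.1 h4.2
      have hP2 : P w = P w' := h2.1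
      have hr2 : r w = r w' := h3.1
      have hi2 : iot hd (D w) = iot hd (D w') := h4.1
      have hv2 : v w = v w' := h5.1
      have hZ2 : Z w = Z w' := h5.2
      have hk2 : kk hd (D w) = kk hd (D w') := (Prod.ext_iff.1 (Prod.ext_iff.1 hi2).2).1
      have hu2 : u w = u w' := hu w w' a b (Prod.ext hv2 hZ2)
      have key : ∀ w, x w + (r w : ℝ) / 2 ^ J * g w =
          pos (2 ^ J) (u' w) (v' w) (r w) (kk hd (D w)) -
            pos (2 ^ J) (u w) (v w) (r w) (kk hd (D w)) := by
        intro w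
        simp only [hx, hg, hpos, hDdef]
        push_cast
        ring
      have e1 : s0 w = ⌊pos (2 ^ J) (u' w) (v' w) (r w) (kk hd (D w)) -
            pos (2 ^ J) (u w) (v w) (r w) (kk hd (D w))⌋ := by
        simp only [hs0]
        rw [key]
      have e2 : s0 w' = ⌊pos (2 ^ J) (u' w') (v' w') (r w') (kk hd (D w')) -
            pos (2 ^ J) (u w') (v' w' |> fun _ => v w') (r w') (kk hd (D w'))⌋ := by
        simp only [hs0]
        rw [key]
      have e3 : P w (kk hd (D w)) = P w' (kk hd (D w')) := by rw [hP2, hk2]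
      have e4 : ⌊pos (2 ^ J) (u' w) (v' w) (r w) (kk hd (D w))⌋ =
          ⌊pos (2 ^ J) (u' w') (v' w') (r w') (kk hd (D w'))⌋ := e3
      rw [e1, e2]
      rw [← hu2, ← hv2, ← hr2, ← hk2] at *
      set A : ℝ := pos (2 ^ J) (u' w) (v' w) (r w) (kk hd (D w))
      set A' : ℝ := pos (2 ^ J) (u' w') (v' w') (r w) (kk hd (D w))
      set Cc : ℝ := pos (2 ^ J) (u w) (v w) (r w) (kk hd (D w))
      have f1 := Int.floor_le A
      have f2 := Int.lt_floor_add_one A
      have f3 := Int.floor_le A'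
      have f4 := Int.lt_floor_add_one A'
      rw [e4] at f1 f2
      have k1 := Int.floor_le (A - Cc)
      have k2 := Int.lt_floor_add_one (A - Cc)
      have k3 := Int.floor_le (A' - Cc)
      have k4 := Int.lt_floor_add_one (A' - Cc)
      have m1 : (⌊A - Cc⌋ : ℝ) - ⌊A' - Cc⌋ < 2 := by linarith
      have m2 : (⌊A' - Cc⌋ : ℝ) - ⌊A - Cc⌋ < 2 := by linarith
      have m3 : ⌊A - Cc⌋ - ⌊A' - Cc⌋ < 2 := by exact_mod_cast m1
      have m4 : ⌊A' - Cc⌋ - ⌊A - Cc⌋ < 2 := by exact_mod_cast m2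
      have m5 : |⌊A - Cc⌋ - ⌊A' - Cc⌋| ≤ 1 := abs_le.2 ⟨by omega, by omega⟩
      exact_mod_cast m5)
    rw [Ex_const h1] at h3
    norm_num at h3
    linarith
  have t11 : CH q g Z' ≤ CH q s0 (fun w => (r w, Z' w)) + ε / 4 * lm J := hscl
  -- final estimate
  have f1 : θ ≤ ε / (4 * (1 + 4 * d)) := min_le_right _ _
  have f2 : θ * (1 + 4 * d) ≤ ε / 4 := by
    rw [le_div_iff₀ (by positivity)] at f1
    linarith
  have f3 : θ * lm J + 4 * d * (θ * lm J) ≤ ε / 4 * lm J := by
    have := mul_le_mul_of_nonneg_right f2 hlm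
    linarith
  have f4 : Real.log (J + 3) ≤ Real.log 2 + Real.log (J + 2) := by
    rw [← Real.log_mul (by norm_num) (by positivity)]
    refine Real.log_le_log (by positivity) ?_
    have : (0 : ℝ) ≤ J := Nat.cast_nonneg J
    linarith
  have f5 := hJE J hJ2 0
  have f6 : K + Real.log (J + 2) ≤ (K + 1) * er J 0 := by
    have h2 : 0 ≤ Real.log ((J : ℝ) + 2) := Real.log_nonneg (by
      have : (0 : ℝ) ≤ J := Nat.cast_nonneg J
      linarith)
    unfold er
    nlinarith
  have f7 : (K + 1) * er J 0 ≤ ε / 4 * lm J := by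
    have h2 : (K + 1) * er J 0 ≤ (K + 1) * (0 + ε / (4 * (K + 1)) * lm J) :=
      mul_le_mul_of_nonneg_left f5 (by positivity)
    refine h2.trans (le_of_eq ?_)
    field_simp
    ring
  have f8 : (d : ℝ) * (2 * Real.log 57 +
      2 * Ex q (fun w => Real.log (1 + 2 ^ J / max 1 |((r w - t w : ℤ) : ℝ)|)) + 10) ≤
      d * (2 * Real.log 57 + 2 * CG + 10) + 4 * d * (θ * lm J) := by
    have h2 := mul_le_mul_of_nonneg_left hgap2 hd0
    linarith
  have hKe : K = Real.log d + Real.log 2 + d * (2 * Real.log 57 + 2 * CG + 10) + Real.log 3 := hK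
  have hI' : CH q (fun w => iot hd (D w)) (fun w => (v w, B w, Z w)) ≤
      Real.log d + Real.log (J + 3) + d * (2 * Real.log 57 +
      2 * Ex q (fun w => Real.log (1 + 2 ^ J / max 1 |((r w - t w : ℤ) : ℝ)|)) + 10) := hI
  have hfin : 0 ≤ ε * lm J := mul_nonneg hε.le hlm
  have s1 : CH q v' (fun w => (B w, Z' w)) ≤ ε / 4 * lm J + θ * lm J + Real.log 3 := by linarith
  have s2 : CH q v' (fun w => (v w, B w, Z w)) ≤
      CH q (fun w => iot hd (D w)) (fun w => (v w, B w, Z w)) +
        (ε / 4 * lm J + θ * lm J + Real.log 3) := by linarith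
  show CH q v' (fun w => (v w, B w, Z w)) ≤ ε * lm J
  have s3 : ε / 4 * lm J = ε * lm J / 4 := by ring
  rw [s3] at f3 f7 s2
  linarith

end Pool.KTH
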