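import Pool.Agent.H45.KTH.FCK

/-!
# KTH, row FCO (Fact K')
-/

set_option autoImplicit false

namespace Pool.KTH

open Finset Real
open Pool.Agent.H49.Ent Pool.Agent.H32.Dense

theorem fco (hSCL : SCLStmt) (hUFC : UFCStmt) (hUPT : UPTStmt) (hCGP : CGPStmt) : FCOStmt := by
  intro d hd ε hε
  obtain ⟨θS, hθS, JS, hS⟩ := hSCL (ε / 4) (by positivity)
  obtain ⟨C1, hC1, hU⟩ := (hUFC d).1
  obtain ⟨C2, hC2, hV⟩ := (hUPT d).1
  obtain ⟨C3, hC3, hG⟩ := hCGP d
  have hd0 : (0 : ℝ) ≤ d := Nat.cast_nonneg d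
  have hd1 : (1 : ℝ) ≤ d := by exact_mod_cast hd
  have hl57 : 0 ≤ Real.log 57 := Real.log_nonneg (by norm_num)
  have hlogd : 0 ≤ Real.log d := Real.log_natCast_nonneg d
  have hl2 : 0 ≤ Real.log 2 := Real.log_nonneg (by norm_num)
  have hl3 : 0 ≤ Real.log 3 := Real.log_nonneg (by norm_num)
  have hl9 : 0 ≤ Real.log 9 := Real.log_nonneg (by norm_num)
  set K : ℝ := Real.log d + Real.log 2 + d * (2 * Real.log 57 + 10) + d * Real.log 3 +
    Real.log 9 with hK
  have hK0 : 0 ≤ K := by positivity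
  set A : ℝ := K + 1 + C1 + C2 + 2 * d * C3 with hA
  have hA0 : 0 ≤ A := by positivity
  set η : ℝ := min (ε / (8 * (A + 1))) (θS / (2 * (A + 1))) with hη
  have hη0 : 0 < η := lt_min (by positivity) (by positivity)
  obtain ⟨JE, hJE1, hJE⟩ := er_small hη0
  refine ⟨η, hη0, max JS JE, fun J hJ F L sb e he hF => ?_⟩
  have hJ1 : JS ≤ J := (le_max_left _ _).trans hJ
  have hJ2 : JE ≤ J := (le_max_right _ _).trans hJ
  have hlm := lm_nonneg J
  have he0 := hF.e0
  have her1 : 1 ≤ er J e := er_ge_one he0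
  have her0 : 0 ≤ er J e := er_nonneg he0
  have her2 : er J e ≤ 2 * η * lm J := by
    have := hJE J hJ2 e
    linarith
  have hE1 : (A + 1) * er J e ≤ ε / 4 * lm J := by
    have h1 : η ≤ ε / (8 * (A + 1)) := min_le_left _ _
    have h2 : (A + 1) * (2 * η) ≤ ε / 4 := by
      rw [le_div_iff₀ (by positivity)] at h1
      linarith
    have h3 := mul_le_mul_of_nonneg_left her2 (show 0 ≤ A + 1 by linarith)
    have h4 := mul_le_mul_of_nonneg_right h2 hlm
    linarith
  have hE2 : (A + 1) * er J e ≤ θS * lm J := by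
    have h1 : η ≤ θS / (2 * (A + 1)) := min_le_right _ _
    have h2 : (A + 1) * (2 * η) ≤ θS := by
      rw [le_div_iff₀ (by positivity)] at h1
      linarith
    have h3 := mul_le_mul_of_nonneg_left her2 (show 0 ≤ A + 1 by linarith)
    have h4 := mul_le_mul_of_nonneg_right h2 hlm
    linarith
  have hq := F.hq
  have h1 := F.h1
  have hM : (0 : ℝ) < 2 ^ J := by positivity
  have hMc : (((2 ^ J : ℕ) : ℕ) : ℝ) = 2 ^ J := by push_cast; rfl
  have hpos : ∀ (a : Fin d → ℝ) (b : Fin d → ℤ) (x : ℤ) (k : Fin d),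
      pos (2 ^ J) a b x k = a k + (x : ℝ) / 2 ^ J * b k := by
    intro a b x k
    unfold pos
    rw [hMc]
  -- the inequalities of the other rows
  have hUc := hU J F L sb e hF
  have hVc := hV J F L sb e hF
  have hGc := hG J F L sb e hF
  simp only at hUc hVc hGc
  have hbigc : 0 ≤ F.big F.c := Ex_nonneg hq fun w _ => Real.log_nonneg (by
    have : (0 : ℝ) ≤ |(F.c w : ℝ)| / 2 ^ J := by positivity
    linarith)
  have hbigc2 : 0 ≤ F.big F.c₂ := Ex_nonneg hq fun w _ => Real.log_nonneg (by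
    have : (0 : ℝ) ≤ |(F.c₂ w : ℝ)| / 2 ^ J := by positivity
    linarith)
  have hsmlc : 0 ≤ F.sml F.c := Ex_nonneg hq fun w _ => Real.log_nonneg (by
    have : (0 : ℝ) ≤ 2 ^ J / max 1 |(F.c w : ℝ)| := by positivity
    linarith)
  have hsmlc2 : 0 ≤ F.sml F.c₂ := Ex_nonneg hq fun w _ => Real.log_nonneg (by
    have : (0 : ℝ) ≤ 2 ^ J / max 1 |(F.c₂ w : ℝ)| := by positivity
    linarith)
  -- the difference of the directions
  set D : F.Ω → Fin d → ℤ := fun w k => F.v₁ w k - F.v₂ w k with hDdef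
  have hDb : ∀ w, 0 < F.q w → ∀ k, |D w k| ≤ 2 * 2 ^ J := by
    intro w hw k
    have a := F.hv₁ w hw k
    have b := F.hv₂ w hw k
    push_cast at a b
    rw [abs_le] at a b ⊢
    simp only [hDdef]
    constructor <;> linarith [a.1, a.2, b.1, b.2]
  set P : F.Ω → Fin d → ℤ :=
    fun w => xf (2 ^ J) (F.u₀ w) (F.v₀ w) (F.s w) (F.c w) (F.v₁ w) with hP
  have hPfl : ∀ w j, P w j =
      ⌊pos (2 ^ J) (F.u₀ w) (F.v₀ w) (F.s w) j + (F.c w : ℝ) / 2 ^ J * F.v₁ w j⌋ := by
    intro w j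
    simp only [hP, xf, rd]
    rw [hMc]
  have hOP : ∀ w, F.O w = (F.TO w, P w) := fun w => rfl
  -- the key relation
  have hW : ∀ w, 0 < F.q w → ∀ j,
      |((P w j : ℝ) - pos (2 ^ J) (F.u₂ w) (F.v₂ w) (F.TO w) j) - (F.c w : ℝ) / 2 ^ J * D w j| ≤
        2 := by
    intro w hw j
    have c1 := congrFun (F.cross02 w hw) j
    simp only [rd] at c1
    have f1 := Int.floor_le (pos (2 ^ J) (F.u₀ w) (F.v₀ w) (F.s w) j)
    have f2 := Int.lt_floor_add_one (pos (2 ^ J) (F.u₀ w) (F.v₀ w) (F.s w) j)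
    have f3 := Int.floor_le (pos (2 ^ J) (F.u₂ w) (F.v₂ w) (F.s w) j)
    have f4 := Int.lt_floor_add_one (pos (2 ^ J) (F.u₂ w) (F.v₂ w) (F.s w) j)
    rw [c1] at f1 f2
    have g1 := Int.floor_le
      (pos (2 ^ J) (F.u₀ w) (F.v₀ w) (F.s w) j + (F.c w : ℝ) / 2 ^ J * F.v₁ w j)
    have g2 := Int.lt_floor_add_one
      (pos (2 ^ J) (F.u₀ w) (F.v₀ w) (F.s w) j + (F.c w : ℝ) / 2 ^ J * F.v₁ w j)
    rw [hPfl]
    have e1 : pos (2 ^ J) (F.u₂ w) (F.v₂ w) (F.TO w) j =
        pos (2 ^ J) (F.u₂ w) (F.v₂ w) (F.s w) j + (F.c w : ℝ) / 2 ^ J * F.v₂ w j := by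
      rw [hpos, hpos]
      unfold Cf.TO
      push_cast
      ring
    have e2 : (F.c w : ℝ) / 2 ^ J * D w j =
        (F.c w : ℝ) / 2 ^ J * F.v₁ w j - (F.c w : ℝ) / 2 ^ J * F.v₂ w j := by
      simp only [hDdef]
      push_cast
      ring
    rw [e1, e2, abs_le]
    constructor <;> linarith
  have hdetW : Det F.q (fun w => (F.O w, F.v₂ w, F.Z w))
      (fun w => fun j => (P w j : ℝ) - pos (2 ^ J) (F.u₂ w) (F.v₂ w) (F.TO w) j) := by
    intro w w' a b h
    have h2 := Prod.ext_iff.1 h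
    have h3 := Prod.ext_iff.1 h2.2
    have h4 := Prod.ext_iff.1 h2.1
    have hT2 : F.TO w = F.TO w' := h4.1
    have hP2 : P w = P w' := h4.2
    have hv2 : F.v₂ w = F.v₂ w' := h3.1
    have hu2 : F.u₂ w = F.u₂ w' := F.hu₂ w w' a b (Prod.ext h3.1 h3.2)
    funext j
    show (P w j : ℝ) - pos (2 ^ J) (F.u₂ w) (F.v₂ w) (F.TO w) j =
      (P w' j : ℝ) - pos (2 ^ J) (F.u₂ w') (F.v₂ w') (F.TO w') j
    rw [hP2, hu2, hv2, hT2]
  have hI := iot_CH hd hq h1 (fun w => (F.O w, F.v₂ w, F.Z w)) D F.c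
    (fun w => fun j => (P w j : ℝ) - pos (2 ^ J) (F.u₂ w) (F.v₂ w) (F.TO w) j) hdetW hDb hW
  have hsm : Ex F.q (fun w => Real.log (1 + 2 ^ J / max 1 |(F.c w : ℝ)|)) = F.sml F.c := rfl
  rw [hsm] at hI
  -- SCL
  set Z' : F.Ω → ((Fin d → ℤ) × (Fin d × ℕ)) × (Fin d → ℤ) × F.ζ :=
    fun w => (iot hd (D w), F.v₂ w, F.Z w) with hZ'
  set g : F.Ω → ℤ := fun w => D w (kk hd (D w)) with hg
  set x : F.Ω → ℝ := fun w => -((F.s w : ℝ) / 2 ^ J * g w) with hx
  set s0 : F.Ω → ℤ := fun w => ⌊x w + (F.TO w : ℝ) / 2 ^ J * g w⌋ with hs0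
  -- the conditioning by all the variables
  have hUc2 : lm J - C1 * er J e ≤ CH F.q F.TO (fun w => (F.v3 w,
      (F.t w, F.s w, F.t₁ w, F.tr w, F.ta w), F.Z w)) := by
    have h2 : CH F.q F.TO (fun w => (F.v3 w,
      (F.t w, F.s w, F.t₁ w, F.tr w, F.ta w), F.Z w)) = CH F.q F.c (fun w => (F.v3 w,
      (F.t w, F.s w, F.t₁ w, F.tr w, F.ta w), F.Z w)) := by
      refine CH_congr hq ?_ ?_ (fun _ _ _ _ h => h) (fun _ _ _ _ h => h)
      · intro w w' _ _ h
        simp only [Prod.mk.injEq] at h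
        have h3 := h.1
        have h4 := h.2.2.1.2.1
        unfold Cf.TO at h3
        linarith
      · intro w w' _ _ h
        simp only [Prod.mk.injEq] at h
        have h3 := h.1
        have h4 := h.2.2.1.2.1
        show F.s w + F.c w = F.s w' + F.c w'
        rw [h3, h4]
    rw [h2]
    linarith
  have hdet3 : Det F.q (fun w => (F.v3 w, (F.t w, F.s w, F.t₁ w, F.tr w, F.ta w), F.Z w))
      (fun w => ((g w, x w), Z' w)) := by
    intro w w' a b h
    have h2 := Prod.ext_iff.1 h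
    have h3 := Prod.ext_iff.1 h2.1
    have h4 := Prod.ext_iff.1 h3.2
    have h5 := Prod.ext_iff.1 h2.2
    have hv1 : F.v₁ w = F.v₁ w' := h4.1
    have hv2 : F.v₂ w = F.v₂ w' := h4.2
    have hs2 : F.s w = F.s w' := (Prod.ext_iff.1 (Prod.ext_iff.1 h5.1).2).1
    have hZ2 : F.Z w = F.Z w' := h5.2
    have hD2 : D w = D w' := by
      funext k
      simp only [hDdef]
      rw [hv1, hv2]
    simp only [hx, hg, hZ']
    rw [hD2, hs2, hv2, hZ2]
  have hscl := hS J hJ1 F.Ω _ F.q Z' g x F.TO hq h1 (fun w hw => hDb w hw _)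
    (by
      have hb : Ex F.q (fun w => Real.log (1 + |(F.TO w : ℝ)| / 2 ^ J)) ≤
          Real.log 2 + F.big F.c := by
        have : Ex F.q (fun w => Real.log (1 + |(F.TO w : ℝ)| / 2 ^ J)) ≤
            Ex F.q (fun w => Real.log 2 + Real.log (1 + |(F.c w : ℝ)| / 2 ^ J)) := by
          refine Ex_mono hq fun w hw => ?_
          rw [← Real.log_mul (by norm_num) (by positivity)]
          refine Real.log_le_log (by positivity) ?_
          have h2 := F.hs w hw
          have h3 : (0 : ℝ) ≤ F.s w := by exact_mod_cast h2.1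
          have h4 : (F.s w : ℝ) ≤ 2 ^ J := by
            have h5 : ((F.s w : ℤ) : ℝ) < (((2 ^ J : ℕ) : ℤ) : ℝ) := by exact_mod_cast h2.2
            push_cast at h5
            exact h5.le
          have h5 : |(F.TO w : ℝ)| ≤ 2 ^ J + |(F.c w : ℝ)| := by
            unfold Cf.TO
            push_cast
            refine (abs_add_le _ _).trans ?_
            rw [abs_of_nonneg h3]
            linarith
          have h6 : |(F.TO w : ℝ)| / 2 ^ J ≤ 1 + |(F.c w : ℝ)| / 2 ^ J := by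
            rw [div_le_iff₀ hM, add_mul, div_mul_cancel₀ _ hM.ne', one_mul]
            exact h5
          have h7 : (0 : ℝ) ≤ |(F.c w : ℝ)| / 2 ^ J := by positivity
          linarith
        rw [Ex_add, Ex_const h1] at this
        exact this
      refine hb.trans (le_trans ?_ hE2)
      have h2 : C3 * er J e ≤ 2 * d * C3 * er J e := by
        refine mul_le_mul_of_nonneg_right ?_ her0
        nlinarith
      have h3 : Real.log 2 ≤ 1 := log2_lt_one.le
      have h4 : (A + 1) * er J e = (K + 1 + C1 + C2) * er J e + 2 * d * C3 * er J e + er J e := by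
        rw [hA]
        ring
      have h5 : 0 ≤ (K + 1 + C1 + C2) * er J e := by positivity
      linarith)
    (by
      have h2 := CH_mono_cond hq (X := F.TO) hdet3
      have h3 : C1 * er J e ≤ (A + 1) * er J e := by
        refine mul_le_mul_of_nonneg_right ?_ her0
        rw [hA]
        nlinarith [mul_nonneg hd0 hC3]
      linarith)
  -- the chain of entropies
  have a1 : CH F.q F.v₁ (fun w => (F.O w, F.v₂ w, F.Z w)) ≤
      CH F.q (fun w => iot hd (D w)) (fun w => (F.O w, F.v₂ w, F.Z w)) +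
        CH F.q F.v₁ (fun w => (iot hd (D w), (F.O w, F.v₂ w, F.Z w))) := CH_le_add hq _ _ _
  have a2 : CH F.q F.v₁ (fun w => (iot hd (D w), (F.O w, F.v₂ w, F.Z w))) =
      CH F.q F.v₁ (fun w => (F.O w, Z' w)) := by
    refine CH_congr hq (fun w w' _ _ h => (Prod.ext_iff.1 h).1)
      (fun w w' _ _ h => (Prod.ext_iff.1 h).1) ?_ ?_
    · intro w w' _ _ h
      simp only [hZ', Prod.mk.injEq] at h ⊢
      tauto
    · intro w w' _ _ h
      simp only [hZ', Prod.mk.injEq] at h ⊢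
      tauto
  have a3 : CH F.q (fun w => (F.s w, F.v₁ w)) (fun w => (F.O w, Z' w)) =
      CH F.q F.v₁ (fun w => (F.O w, Z' w)) + CH F.q F.s (fun w => (F.v₁ w, (F.O w, Z' w))) :=
    CH_chain hq _ _ _
  have a4 : CH F.q (fun w => ((F.s w, F.v₁ w), F.O w)) Z' =
      CH F.q F.O Z' + CH F.q (fun w => (F.s w, F.v₁ w)) (fun w => (F.O w, Z' w)) :=
    CH_chain hq _ _ _
  have a5 : CH F.q (fun w => ((F.s w, F.v₁ w), F.O w)) Z' =
      CH F.q (fun w => (F.O w, (F.s w, F.v₁ w))) Z' := by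
    refine CH_congr hq ?_ ?_ (fun _ _ _ _ h => h) (fun _ _ _ _ h => h)
    · intro w w' _ _ h
      simp only [Prod.mk.injEq] at h ⊢
      tauto
    · intro w w' _ _ h
      simp only [Prod.mk.injEq] at h ⊢
      tauto
  have a6 : CH F.q (fun w => (F.O w, (F.s w, F.v₁ w))) Z' =
      CH F.q (fun w => (F.s w, F.v₁ w)) Z' + CH F.q F.O (fun w => ((F.s w, F.v₁ w), Z' w)) :=
    CH_chain hq _ _ _
  have a7 : CH F.q (fun w => (F.s w, F.v₁ w)) Z' =
      CH F.q F.v₁ Z' + CH F.q F.s (fun w => (F.v₁ w, Z' w)) := CH_chain hq _ _ _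
  have a8 : CH F.q F.s (fun w => (F.v₁ w, Z' w)) ≤ F.qs := by
    refine CH_mono_cond hq ?_
    intro w w' _ _ h
    simp only [hZ', Prod.mk.injEq] at h ⊢
    tauto
  have a9 : CH F.q F.v₁ Z' ≤ CH F.q g Z' := by
    have h2 : CH F.q F.v₁ Z' = CH F.q D Z' := by
      refine CH_congr hq ?_ ?_ (fun _ _ _ _ h => h) (fun _ _ _ _ h => h)
      · intro w w' _ _ h
        have h2 := Prod.ext_iff.1 h
        have hv1 : F.v₁ w = F.v₁ w' := h2.1
        have hv2 : F.v₂ w = F.v₂ w' := (Prod.ext_iff.1 (Prod.ext_iff.1 h2.2).2).1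
        funext k
        show F.v₁ w k - F.v₂ w k = F.v₁ w' k - F.v₂ w' k
        rw [hv1, hv2]
      · intro w w' _ _ h
        have h2 := Prod.ext_iff.1 h
        have hD2 : D w = D w' := h2.1
        have hv2 : F.v₂ w = F.v₂ w' := (Prod.ext_iff.1 (Prod.ext_iff.1 h2.2).2).1
        funext k
        have h3 := congrFun hD2 k
        have h4 := congrFun hv2 k
        have h5 : F.v₁ w k - F.v₂ w k = F.v₁ w' k - F.v₂ w' k := h3
        linarith
    rw [h2]
    exact CH_D_le hd hq (fun w => (F.v₂ w, F.Z w)) D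
  have a10 : CH F.q F.O (fun w => ((F.s w, F.v₁ w), Z' w)) ≤ lm J + C2 * er J e +
      d * Real.log 3 := by
    have h2 : CH F.q F.O (fun w => ((F.s w, F.v₁ w), Z' w)) ≤
        CH F.q F.c (fun w => ((F.s w, F.v₁ w), Z' w)) +
          CH F.q F.O (fun w => (F.c w, ((F.s w, F.v₁ w), Z' w))) := CH_le_add hq _ _ _
    have h3 : CH F.q F.c (fun w => ((F.s w, F.v₁ w), Z' w)) ≤ CH F.q F.c F.Z := by
      refine CH_mono_cond hq ?_
      intro w w' _ _ h
      simp only [hZ', Prod.mk.injEq] at h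
      tauto
    have h4 : CH F.q F.O (fun w => (F.c w, ((F.s w, F.v₁ w), Z' w))) ≤
        CH F.q P (fun w => (F.c w, ((F.s w, F.v₁ w), Z' w))) := by
      refine CH_mono_left hq ?_
      intro w w' _ _ h
      have hP2 : P w = P w' := (Prod.ext_iff.1 h).1
      have h3 := Prod.ext_iff.1 (Prod.ext_iff.1 h).2
      have hc2 : F.c w = F.c w' := h3.1
      have hs2 : F.s w = F.s w' := (Prod.ext_iff.1 (Prod.ext_iff.1 h3.2).1).1
      rw [hOP, hOP]
      refine Prod.ext ?_ hP2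
      show F.s w + F.c w = F.s w' + F.c w'
      rw [hc2, hs2]
    have h5 := CH_le_vec hq h1 P (fun w => (F.c w, ((F.s w, F.v₁ w), Z' w))) (fun _ => 1) (by
      intro w w' a b h k
      have h3 := Prod.ext_iff.1 h
      have hc2 : F.c w = F.c w' := h3.1
      have h4 := Prod.ext_iff.1 h3.2
      have hs2 : F.s w = F.s w' := (Prod.ext_iff.1 h4.1).1
      have hv1 : F.v₁ w = F.v₁ w' := (Prod.ext_iff.1 h4.1).2
      have h5 := Prod.ext_iff.1 (Prod.ext_iff.1 h4.2).2
      have hv2 : F.v₂ w = F.v₂ w' := h5.1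
      have hu2 : F.u₂ w = F.u₂ w' := F.hu₂ w w' a b (Prod.ext h5.1 h5.2)
      have c1 := congrFun (F.cross02 w a) k
      have c2 := congrFun (F.cross02 w' b) k
      simp only [rd] at c1 c2
      rw [← hu2, ← hv2, ← hs2, ← c1] at c2
      -- both positions of the line 0 have the same floor
      rw [hPfl, hPfl, ← hc2, ← hs2, ← hv1]
      set X : ℝ := pos (2 ^ J) (F.u₀ w) (F.v₀ w) (F.s w) k
      set X' : ℝ := pos (2 ^ J) (F.u₀ w') (F.v₀ w') (F.s w) k
      set y : ℝ := (F.c w : ℝ) / 2 ^ J * F.v₁ w k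
      have f1 := Int.floor_le X
      have f2 := Int.lt_floor_add_one X
      have f3 := Int.floor_le X'
      have f4 := Int.lt_floor_add_one X'
      rw [c2] at f3 f4
      have k1 := Int.floor_le (X + y)
      have k2 := Int.lt_floor_add_one (X + y)
      have k3 := Int.floor_le (X' + y)
      have k4 := Int.lt_floor_add_one (X' + y)
      have m1 : (⌊X + y⌋ : ℝ) - ⌊X' + y⌋ < 2 := by linarith
      have m2 : (⌊X' + y⌋ : ℝ) - ⌊X + y⌋ < 2 := by linarith
      have m3 : ⌊X + y⌋ - ⌊X' + y⌋ < 2 := by exact_mod_cast m1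
      have m4 : ⌊X' + y⌋ - ⌊X + y⌋ < 2 := by exact_mod_cast m2
      have m5 : |⌊X + y⌋ - ⌊X' + y⌋| ≤ 1 := abs_le.2 ⟨by omega, by omega⟩
      exact_mod_cast m5)
    rw [Ex_const h1] at h5
    norm_num at h5
    linarith
  have a11 : CH F.q F.O Z' = CH F.q F.TO Z' + CH F.q P (fun w => (F.TO w, Z' w)) := by
    have h2 : CH F.q F.O Z' = CH F.q (fun w => (P w, F.TO w)) Z' := by
      refine CH_congr hq ?_ ?_ (fun _ _ _ _ h => h) (fun _ _ _ _ h => h)
      · intro w w' _ _ h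
        have h2 := Prod.ext_iff.1 (Prod.ext_iff.1 h).1
        exact Prod.ext h2.2 h2.1
      · intro w w' _ _ h
        have h2 := Prod.ext_iff.1 (Prod.ext_iff.1 h).1
        rw [hOP, hOP]
        exact Prod.ext h2.2 h2.1
    rw [h2]
    exact CH_chain hq _ _ _
  have a12 : lm J - C1 * er J e ≤ CH F.q F.TO Z' := by
    refine hUc2.trans (CH_mono_cond hq ?_)
    intro w w' a b h
    exact (Prod.ext_iff.1 (hdet3 w w' a b h)).2
  have a13 : CH F.q s0 (fun w => (F.TO w, Z' w)) ≤ CH F.q P (fun w => (F.TO w, Z' w)) +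
      Real.log 9 := by
    have h2 := CH_le_add hq s0 P (fun w => (F.TO w, Z' w))
    have h3 := CH_le_int hq h1 s0 (fun w => (P w, F.TO w, Z' w)) (fun _ => 4) (by
      intro w w' a b h
      have h2 := Prod.ext_iff.1 h
      have h3 := Prod.ext_iff.1 h2.2
      have h4 := Prod.ext_iff.1 h3.2
      have h5 := Prod.ext_iff.1 h4.2
      have hP2 : P w = P w' := h2.1
      have hT2 : F.TO w = F.TO w' := h3.1
      have hi2 : iot hd (D w) = iot hd (D w') := h4.1
      have hv2 : F.v₂ w = F.v₂ w' := h5.1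
      have hZ2 : F.Z w = F.Z w' := h5.2
      have hk2 : kk hd (D w) = kk hd (D w') := (Prod.ext_iff.1 (Prod.ext_iff.1 hi2).2).1
      have hu2 : F.u₂ w = F.u₂ w' := F.hu₂ w w' a b (Prod.ext hv2 hZ2)
      have key : ∀ w, x w + (F.TO w : ℝ) / 2 ^ J * g w =
          (F.c w : ℝ) / 2 ^ J * D w (kk hd (D w)) := by
        intro w
        simp only [hx, hg]
        unfold Cf.TO
        push_cast
        ring
      have n1 := hW w a (kk hd (D w))
      have n2 := hW w' b (kk hd (D w'))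
      rw [← key w] at n1
      rw [← key w'] at n2
      rw [← hk2, ← hP2, ← hu2, ← hv2, ← hT2] at n2
      set y : ℝ := x w + (F.TO w : ℝ) / 2 ^ J * g w
      have hy' : x w' + (F.TO w : ℝ) / 2 ^ J * g w' = x w' + (F.TO w' : ℝ) / 2 ^ J * g w' := by
        rw [hT2]
      rw [hy'] at n2
      set y' : ℝ := x w' + (F.TO w' : ℝ) / 2 ^ J * g w'
      rw [abs_le] at n1 n2
      have k1 := Int.floor_le y
      have k2 := Int.lt_floor_add_one y
      have k3 := Int.floor_le y'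
      have k4 := Int.lt_floor_add_one y'
      have m1 : (⌊y⌋ : ℝ) - ⌊y'⌋ < 5 := by linarith [n1.1, n1.2, n2.1, n2.2]
      have m2 : (⌊y'⌋ : ℝ) - ⌊y⌋ < 5 := by linarith [n1.1, n1.2, n2.1, n2.2]
      have m3 : ⌊y⌋ - ⌊y'⌋ < 5 := by exact_mod_cast m1
      have m4 : ⌊y'⌋ - ⌊y⌋ < 5 := by exact_mod_cast m2
      have m5 : |⌊y⌋ - ⌊y'⌋| ≤ 4 := abs_le.2 ⟨by omega, by omega⟩
      show |((⌊y⌋ - ⌊y'⌋ : ℤ) : ℝ)| ≤ 4
      exact_mod_cast m5)
    rw [Ex_const h1] at h3
    norm_num at h3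
    linarith
  have a14 : CH F.q g Z' ≤ CH F.q s0 (fun w => (F.TO w, Z' w)) + ε / 4 * lm J := hscl
  have a15 : CH F.q F.s (fun w => (F.v12 w, F.O w, F.Z w)) ≤
      CH F.q F.s (fun w => (F.v₁ w, (F.O w, Z' w))) := by
    refine CH_mono_cond hq ?_
    intro w w' _ _ h
    have h2 := Prod.ext_iff.1 h
    have h3 := Prod.ext_iff.1 h2.1
    have h4 := Prod.ext_iff.1 h2.2
    have hv1 : F.v₁ w = F.v₁ w' := h3.1
    have hv2 : F.v₂ w = F.v₂ w' := h3.2
    have hO2 : F.O w = F.O w' := h4.1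
    have hZ2 : F.Z w = F.Z w' := h4.2
    have hD2 : D w = D w' := by
      funext k
      simp only [hDdef]
      rw [hv1, hv2]
    simp only [hZ']
    rw [hD2, hv1, hv2, hO2, hZ2]
  -- final estimate
  have b1 : Real.log (J + 3) ≤ Real.log 2 + Real.log (J + 2) := by
    rw [← Real.log_mul (by norm_num) (by positivity)]
    refine Real.log_le_log (by positivity) ?_
    have : (0 : ℝ) ≤ J := Nat.cast_nonneg J
    linarith
  have b2 : Real.log (J + 2) ≤ er J e := log_le_er he0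
  have b3 : F.sml F.c ≤ C3 * er J e := by linarith
  have b4 : (d : ℝ) * (2 * Real.log 57 + 2 * F.sml F.c + 10) ≤
      d * (2 * Real.log 57 + 10) + 2 * d * C3 * er J e := by
    have := mul_le_mul_of_nonneg_left b3 hd0
    nlinarith
  have b5 : K ≤ K * er J e := by nlinarith
  have b6 : (A + 1) * er J e = K * er J e + er J e + C1 * er J e + C2 * er J e +
      2 * d * C3 * er J e + er J e := by
    rw [hA]
    ring
  have hKe : K = Real.log d + Real.log 2 + d * (2 * Real.log 57 + 10) + d * Real.log 3 +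
    Real.log 9 := hK
  have hfin : 0 ≤ ε * lm J := mul_nonneg hε.le hlm
  have s3 : ε / 4 * lm J = ε * lm J / 4 := by ring
  rw [s3] at hE1 a14
  simp only
  linarith

end Pool.KTH
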