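import Pool.Agent.H12.KTH.Stmts
import Pool.Agent.H12.KTH.Err
import Pool.Agent.H45.KTH.VEC

/-!
# KTH: a vector is determined by its largest coordinate and the rounded ratios

Used for FCK and FCO.
-/

set_option autoImplicit false

namespace Pool.KTH

open Finset Real
open Pool.Agent.H49.Ent Pool.Agent.H32.Dense

section Vec

variable {d : ℕ}

theorem exists_kk (hd : 1 ≤ d) (D : Fin d → ℤ) : ∃ k, ∀ j, |D j| ≤ |D k| := by
  obtain ⟨k, _, hk⟩ := Finset.exists_max_image (Finset.univ : Finset (Fin d)) (fun k => |D k|)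
    ⟨⟨0, by omega⟩, Finset.mem_univ _⟩
  exact ⟨k, fun j => hk j (Finset.mem_univ _)⟩

/-- a coordinate of maximal absolute value -/
noncomputable def kk (hd : 1 ≤ d) (D : Fin d → ℤ) : Fin d := (exists_kk hd D).choose

theorem kk_spec (hd : 1 ≤ d) (D : Fin d → ℤ) (j : Fin d) : |D j| ≤ |D (kk hd D)| :=
  (exists_kk hd D).choose_spec j

/-- the dyadic class of the maximal coordinate -/
noncomputable def bb (hd : 1 ≤ d) (D : Fin d → ℤ) : ℕ := Nat.size (D (kk hd D)).natAbs

/-- the rounded ratios -/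
noncomputable def EE (hd : 1 ≤ d) (D : Fin d → ℤ) : Fin d → ℤ :=
  fun j => ⌊(2 : ℝ) ^ bb hd D * ((D j : ℝ) / D (kk hd D))⌋

/-- the rounded ratios, the coordinate and the class -/
noncomputable def iot (hd : 1 ≤ d) (D : Fin d → ℤ) : (Fin d → ℤ) × (Fin d × ℕ) :=
  (EE hd D, (kk hd D, bb hd D))

theorem lt_bb (hd : 1 ≤ d) (D : Fin d → ℤ) : |(D (kk hd D) : ℝ)| < 2 ^ bb hd D := by
  have h := Nat.lt_size_self (D (kk hd D)).natAbs
  have h2 : (((D (kk hd D)).natAbs : ℕ) : ℝ) < 2 ^ bb hd D := by exact_mod_cast h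
  rwa [Nat.cast_natAbs, Int.cast_abs] at h2

theorem bb_le (hd : 1 ≤ d) (D : Fin d → ℤ) (h0 : D (kk hd D) ≠ 0) :
    (2 : ℝ) ^ bb hd D ≤ 2 * |(D (kk hd D) : ℝ)| := by
  have hs : 0 < Nat.size (D (kk hd D)).natAbs := by
    rw [Nat.size_pos]
    exact Int.natAbs_pos.2 h0
  have h1 : bb hd D - 1 < Nat.size (D (kk hd D)).natAbs := by
    unfold bb
    omega
  have h2 : 2 ^ (bb hd D - 1) ≤ (D (kk hd D)).natAbs := Nat.lt_size.1 h1
  have h3 : (2 : ℝ) ^ (bb hd D - 1) ≤ |(D (kk hd D) : ℝ)| := by
    have : ((2 ^ (bb hd D - 1) : ℕ) : ℝ) ≤ ((D (kk hd D)).natAbs : ℕ) := by exact_mod_cast h2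
    rw [Nat.cast_natAbs, Int.cast_abs] at this
    simpa using this
  have h4 : bb hd D = (bb hd D - 1) + 1 := by
    have : 0 < bb hd D := hs
    omega
  rw [h4, pow_succ]
  linarith

theorem bb_lt (hd : 1 ≤ d) (D : Fin d → ℤ) {J : ℕ} (h : |D (kk hd D)| ≤ 2 * 2 ^ J) :
    bb hd D < J + 3 := by
  have h1 : (D (kk hd D)).natAbs < 2 ^ (J + 2) := by
    have h2 : ((D (kk hd D)).natAbs : ℤ) ≤ 2 * 2 ^ J := by
      rw [Int.natCast_natAbs]
      exact h
    have h3 : (2 : ℤ) * 2 ^ J < 2 ^ (J + 2) := by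
      have : (0 : ℤ) < 2 ^ J := by positivity
      rw [pow_add]
      linarith
    have h4 : ((D (kk hd D)).natAbs : ℤ) < ((2 ^ (J + 2) : ℕ) : ℤ) := by
      push_cast
      linarith
    exact_mod_cast h4
  have h5 := Nat.size_le.2 h1
  unfold bb
  omega

/-- The vector is determined by `iot` and the maximal coordinate. -/
theorem iot_inj (hd : 1 ≤ d) {D D' : Fin d → ℤ} (h : iot hd D = iot hd D')
    (hg : D (kk hd D) = D' (kk hd D')) : D = D' := by
  have hE : EE hd D = EE hd D' := (Prod.ext_iff.1 h).1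
  have hk : kk hd D = kk hd D' := (Prod.ext_iff.1 (Prod.ext_iff.1 h).2).1
  have hb : bb hd D = bb hd D' := (Prod.ext_iff.1 (Prod.ext_iff.1 h).2).2
  funext j
  by_cases h0 : D (kk hd D) = 0
  · have h1 := kk_spec hd D j
    have h2 := kk_spec hd D' j
    rw [← hg, h0, abs_zero] at h2
    rw [h0, abs_zero] at h1
    have h3 := abs_nonpos_iff.1 h1
    have h4 := abs_nonpos_iff.1 h2
    rw [h3, h4]
  · have he := congrFun hE j
    unfold EE at he
    rw [← hb, ← hg] at he
    have hlt := lt_bb hd D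
    set g : ℝ := (D (kk hd D) : ℝ) with hgdef
    have hg0 : g ≠ 0 := by
      rw [hgdef]
      exact_mod_cast h0
    have hga : 0 < |g| := abs_pos.2 hg0
    set P : ℝ := 2 ^ bb hd D with hP
    have hP0 : 0 < P := by positivity
    have a1 := Int.floor_le (P * ((D j : ℝ) / g))
    have a2 := Int.lt_floor_add_one (P * ((D j : ℝ) / g))
    have b1 := Int.floor_le (P * ((D' j : ℝ) / g))
    have b2 := Int.lt_floor_add_one (P * ((D' j : ℝ) / g))
    rw [he] at a1 a2
    have h5 : |P * ((D j : ℝ) / g) - P * ((D' j : ℝ) / g)| < 1 := by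
      rw [abs_lt]
      constructor <;> linarith
    have h6 : P * ((D j : ℝ) / g) - P * ((D' j : ℝ) / g) = P * ((D j : ℝ) - D' j) / g := by
      field_simp
    rw [h6, abs_div, abs_mul, abs_of_pos hP0, div_lt_one hga] at h5
    have h7 : |(D j : ℝ) - D' j| < 1 := by
      by_contra hcon
      have hcon := not_lt.1 hcon
      have : P * 1 ≤ P * |(D j : ℝ) - D' j| := mul_le_mul_of_nonneg_left hcon hP0.le
      linarith
    have h8 : |D j - D' j| < 1 := by exact_mod_cast h7
    have h9 := Int.abs_lt_one_iff.1 h8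
    linarith

/-- The centre for the rounded ratios. -/
noncomputable def Ctr (b : ℕ) (k : Fin d) (W : Fin d → ℝ) : Fin d → ℝ :=
  fun j => if 1 ≤ |W k| then (2 : ℝ) ^ b * (W j / W k) else 0

/-- The rounded ratios of `D` are known up to `56 (1 + M / |c|)` from `W`, if `W` is
`(c / M) D` up to `2`. -/
theorem EE_near (hd : 1 ≤ d) (D : Fin d → ℤ) {M : ℝ} (hM : 0 < M) (c : ℤ) (W : Fin d → ℝ)
    (hD : |(D (kk hd D) : ℝ)| ≤ 2 * M) (hW : ∀ j, |W j - (c : ℝ) / M * D j| ≤ 2) (j : Fin d) :
    |(EE hd D j : ℝ) - Ctr (bb hd D) (kk hd D) W j| ≤ 56 * (1 + M / max 1 |(c : ℝ)|) := by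
  have hmax : (0 : ℝ) < max 1 |(c : ℝ)| := lt_of_lt_of_le one_pos (le_max_left _ _)
  have hR : 0 < M / max 1 |(c : ℝ)| := div_pos hM hmax
  have hDj : |(D j : ℝ)| ≤ |(D (kk hd D) : ℝ)| := by exact_mod_cast kk_spec hd D j
  have hWj := hW j
  have hWk := hW (kk hd D)
  have hf1 := Int.floor_le ((2 : ℝ) ^ bb hd D * ((D j : ℝ) / D (kk hd D)))
  have hf2 := Int.lt_floor_add_one ((2 : ℝ) ^ bb hd D * ((D j : ℝ) / D (kk hd D)))
  have hEd : (EE hd D j : ℝ) = (⌊(2 : ℝ) ^ bb hd D * ((D j : ℝ) / D (kk hd D))⌋ : ℝ) := rfl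
  by_cases h0 : D (kk hd D) = 0
  · -- the zero vector
    have hb0 : bb hd D = 0 := by
      unfold bb
      rw [h0]
      simp
    have hDj0 : (D j : ℝ) = 0 := by
      rw [h0] at hDj
      simpa using hDj
    have hE0 : (EE hd D j : ℝ) = 0 := by
      rw [hEd, hDj0]
      simp
    rw [hE0, zero_sub, abs_neg]
    unfold Ctr
    split_ifs with h1
    · rw [hb0, pow_zero, one_mul, abs_div]
      rw [hDj0, mul_zero, sub_zero] at hWj
      have h2 : |W j| / |W (kk hd D)| ≤ 2 := by
        rw [div_le_iff₀ (by linarith)]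
        linarith
      linarith
    · rw [abs_zero]
      positivity
  · have h2b := bb_le hd D h0
    set m : ℝ := |(D (kk hd D) : ℝ)| with hm
    have hm1 : 1 ≤ m := by
      rw [hm]
      exact_mod_cast Int.one_le_abs h0
    set P : ℝ := 2 ^ bb hd D with hP
    have hP0 : 0 < P := by positivity
    have hDk0 : (D (kk hd D) : ℝ) ≠ 0 := by exact_mod_cast h0
    have hrat : |(D j : ℝ) / D (kk hd D)| ≤ 1 := by
      rw [abs_div, div_le_one (by linarith)]
      exact hDj
    by_cases hcase : 4 * M ≤ |(c : ℝ)| * m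
    · -- the main case
      have hc1 : 1 ≤ |(c : ℝ)| := by
        have hc0 : c ≠ 0 := by
          rintro rfl
          simp at hcase
          linarith
        exact_mod_cast Int.one_le_abs hc0
      have hmx : max 1 |(c : ℝ)| = |(c : ℝ)| := max_eq_right hc1
      rw [hmx]
      have hcm : 4 ≤ |(c : ℝ)| / M * m := by
        rw [div_mul_eq_mul_div, le_div_iff₀ hM]
        exact hcase
      have hWk2 : |(c : ℝ)| / M * m / 2 ≤ |W (kk hd D)| := by
        have e1 : |(c : ℝ) / M * D (kk hd D)| = |(c : ℝ)| / M * m := by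
          rw [abs_mul, abs_div, abs_of_pos hM]
        have e2 : |(c : ℝ) / M * D (kk hd D)| ≤
            |W (kk hd D)| + |W (kk hd D) - (c : ℝ) / M * D (kk hd D)| := by
          have := abs_sub_abs_le_abs_sub ((c : ℝ) / M * D (kk hd D)) (W (kk hd D))
          rw [abs_sub_comm] at this
          linarith
        rw [e1] at e2
        linarith
      have hWk1 : 1 ≤ |W (kk hd D)| := by linarith
      have hWpos : 0 < |W (kk hd D)| := by linarith
      have hWne : W (kk hd D) ≠ 0 := abs_pos.1 hWpos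
      unfold Ctr
      rw [if_pos hWk1]
      -- the difference of the ratios
      have hr : |(D j : ℝ) / D (kk hd D) - W j / W (kk hd D)| ≤ 4 / |W (kk hd D)| := by
        have e1 : (D j : ℝ) / D (kk hd D) - W j / W (kk hd D) =
            ((W (kk hd D) - (c : ℝ) / M * D (kk hd D)) * D j -
              (W j - (c : ℝ) / M * D j) * D (kk hd D)) / (W (kk hd D) * D (kk hd D)) := by
          field_simp
          ring
        rw [e1, abs_div, abs_mul (W (kk hd D))]
        rw [div_le_div_iff₀ (by positivity) hWpos]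
        have e2 : |(W (kk hd D) - (c : ℝ) / M * D (kk hd D)) * D j -
            (W j - (c : ℝ) / M * D j) * D (kk hd D)| ≤ 4 * m := by
          refine (abs_sub _ _).trans ?_
          rw [abs_mul, abs_mul]
          have e3 : |W (kk hd D) - (c : ℝ) / M * D (kk hd D)| * |(D j : ℝ)| ≤ 2 * m :=
            mul_le_mul hWk hDj (abs_nonneg _) (by norm_num)
          have e4 : |W j - (c : ℝ) / M * D j| * |(D (kk hd D) : ℝ)| ≤ 2 * m :=
            mul_le_mul hWj le_rfl (abs_nonneg _) (by norm_num)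
          linarith
        calc _ ≤ (4 * m) * |W (kk hd D)| := by gcongr
          _ = 4 * (|W (kk hd D)| * |(D (kk hd D) : ℝ)|) := by ring
      have hr2 : P * |(D j : ℝ) / D (kk hd D) - W j / W (kk hd D)| ≤ 16 * (M / |(c : ℝ)|) := by
        have hcpos : 0 < |(c : ℝ)| := by linarith
        calc P * |(D j : ℝ) / D (kk hd D) - W j / W (kk hd D)|
            ≤ (2 * m) * (4 / |W (kk hd D)|) := by gcongr
          _ ≤ (2 * m) * (4 / (|(c : ℝ)| / M * m / 2)) := by gcongr
          _ = 16 * (M / |(c : ℝ)|) := by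
            field_simp
            norm_num
      rw [abs_le]
      have e5 : |P * ((D j : ℝ) / D (kk hd D)) - P * (W j / W (kk hd D))| ≤
          16 * (M / |(c : ℝ)|) := by
        rw [← mul_sub, abs_mul, abs_of_pos hP0]
        exact hr2
      rw [abs_le] at e5
      have hRp : 0 < M / |(c : ℝ)| := by
        have : 0 < |(c : ℝ)| := by linarith
        positivity
      rw [hEd]
      constructor <;> linarith [e5.1, e5.2]
    · -- both are small
      have hcase := not_le.1 hcase
      have hmR : m ≤ 4 * (M / max 1 |(c : ℝ)|) := by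
        rw [mul_div_assoc', le_div_iff₀ hmax]
        rcases le_total |(c : ℝ)| 1 with h1 | h1
        · rw [max_eq_left h1]
          linarith
        · rw [max_eq_right h1]
          linarith
      have hEb : |(EE hd D j : ℝ)| ≤ P + 1 := by
        have e1 : |P * ((D j : ℝ) / D (kk hd D))| ≤ P := by
          rw [abs_mul, abs_of_pos hP0]
          nlinarith [abs_nonneg ((D j : ℝ) / D (kk hd D))]
        rw [abs_le] at e1
        rw [hEd, abs_le]
        constructor <;> linarith [e1.1, e1.2]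
      have hCb : |Ctr (bb hd D) (kk hd D) W j| ≤ 6 * P := by
        unfold Ctr
        split_ifs with h1
        · rw [abs_mul, abs_div, abs_of_pos hP0]
          have e1 : |(c : ℝ) / M * D j| ≤ 4 := by
            rw [abs_mul, abs_div, abs_of_pos hM, div_mul_eq_mul_div, div_le_iff₀ hM]
            calc |(c : ℝ)| * |(D j : ℝ)| ≤ |(c : ℝ)| * m := by gcongr
              _ ≤ 4 * M := hcase.le
          have e2 : |W j| ≤ 6 := by
            have := abs_sub_abs_le_abs_sub (W j) ((c : ℝ) / M * D j)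
            linarith
          have e3 : |W j| / |W (kk hd D)| ≤ 6 := by
            rw [div_le_iff₀ (by linarith)]
            nlinarith
          nlinarith
        · rw [abs_zero]
          positivity
      have e4 : |(EE hd D j : ℝ) - Ctr (bb hd D) (kk hd D) W j| ≤
          |(EE hd D j : ℝ)| + |Ctr (bb hd D) (kk hd D) W j| := abs_sub _ _
      have hRn : 0 < M / max 1 |(c : ℝ)| := hR
      linarith

end Vec

end Pool.KTH
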